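import Pool.Agent.helper3.T6.SpecH

set_option autoImplicit false

namespace Pool.Agent.T6

open Finset NumberField Pool.Agent.helper3.FT Pool.Agent.helper47.RA Pool.Agent.T5
open scoped nonZeroDivisors

section
variable {K : Type} [Field K] [NumberField K]

/-- `cj a * a` is an integer -/
theorem HBAD_self (Q : QF K) (a : 𝓞 K) : Q.Y (Q.cj a * a) = 0 := by
  obtain ⟨n, hn, -⟩ := Q.exists_norm a
  rw [mul_comm, hn, Q.Y_int]

/-- `Y (cj β * α) = - Y (cj α * β)` -/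
theorem HBAD_swap (Q : QF K) (a b : 𝓞 K) : Q.Y (Q.cj b * a) = - Q.Y (Q.cj a * b) := by
  rw [← Q.Y_cj, map_mul, Q.cj_cj, mul_comm]

/-- the determinant of two points of the row -/
theorem HBAD_Y (Q : QF K) (e₁ e₂ : 𝓞 K) (j x x' : ℤ) :
    Q.Y (Q.cj ((x : 𝓞 K) * e₁ + j * e₂) * ((x' : 𝓞 K) * e₁ + j * e₂)) =
      j * (x - x') * Q.Y (Q.cj e₁ * e₂) := by
  have h : Q.cj ((x : 𝓞 K) * e₁ + j * e₂) * ((x' : 𝓞 K) * e₁ + j * e₂) =
      ((x * x' : ℤ) : 𝓞 K) * (Q.cj e₁ * e₁) + ((x * j : ℤ) : 𝓞 K) * (Q.cj e₁ * e₂) +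
        ((j * x' : ℤ) : 𝓞 K) * (Q.cj e₂ * e₁) + ((j * j : ℤ) : 𝓞 K) * (Q.cj e₂ * e₂) := by
    rw [map_add, map_mul, map_mul, Q.cj_int, Q.cj_int]
    push_cast
    ring
  rw [h, Q.Y_add, Q.Y_add, Q.Y_add, Q.Y_int_mul, Q.Y_int_mul, Q.Y_int_mul, Q.Y_int_mul,
    HBAD_self, HBAD_self, HBAD_swap Q e₁ e₂]
  ring

/-- the conductor divides `Y θ` -/
theorem HBAD_dvd (Q : QF K) (hD : Q.D < -4) (a : Ideal (𝓞 K)) (θ α γ : 𝓞 K) (ha : a ≠ ⊥)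
    (hna : ¬ a.IsPrincipal) (hθ : Ideal.span {θ} = a ^ 5) (h : Adm Q a α γ) :
    ((gd Q α γ : ℕ) : ℤ) ∣ Q.Y θ := by
  have hD0 : Q.D < 0 := by omega
  obtain ⟨θ', h1, h2⟩ := h.ga
  have hα : α ≠ 0 := by
    rintro rfl
    have := h.n0
    have h0 : Q.Y (0 : 𝓞 K) = 0 := by
      have := Q.Y_int 0
      simpa using this
    omega
  obtain ⟨F, -, hβ, hγ, hFα, -⟩ := Pool.Agent.helper26.T5.lfu K Q a θ' α γ hD0 h.pa ha h1.symm hα
    h.mem h.pL h2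
  have hd0 : ((gd Q α γ : ℕ) : ℤ) ≠ 0 := by
    have h3 : gd Q α γ ≠ 0 := by
      unfold gd
      intro h4
      have := (Int.gcd_eq_zero_iff.1 h4).1
      have := h.n0
      omega
    exact_mod_cast h3
  have h5 := (F.gcd_dvd ((gd Q α γ : ℕ) : ℤ) hd0 (by rw [hβ]; unfold gd; exact Int.gcd_dvd_left ..)
    (by rw [hγ]; unfold gd; exact Int.gcd_dvd_right ..)).2.2.1
  rw [hFα] at h5
  rcases (Pool.Agent.helper26.T5.AllL.aLYT K Q a θ hD ha hθ hna).2.2 θ' h1.symm with h6 | h6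
  · rwa [h6] at h5
  · rw [h6] at h5
    have h7 : Q.Y (-θ) = - Q.Y θ := by
      have := Q.Y_int_mul (-1) θ
      push_cast at this
      simpa using this
    rw [h7] at h5
    exact (dvd_neg.1 h5)

end

theorem HBAD (hHGC : HGC_stmt) (hHLC : HLC_stmt) : HBAD_stmt := by
  intro K _ _ Q hD a θ e₁ e₂ ha hna hθ hRB j S H W hj hH hW hS hSS
  have hD0 : Q.D < 0 := by omega
  have hyt := (Pool.Agent.helper26.T5.AllL.aLYT K Q a θ hD ha hθ hna).1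
  choose! g hg1 hg2 using hS
  have hdet : |Q.Y (Q.cj e₁ * e₂)| = (Ideal.absNorm a : ℤ) ^ 2 := by
    rw [hRB.det, map_pow]
    push_cast
    ring
  refine hHLC S (fun x => gd Q ((x : 𝓞 K) * e₁ + j * e₂) (g x)) (Q.Y θ) H (2 * W) hyt hH
    (by linarith) ?_ ?_
  · intro x hx
    exact ⟨HBAD_dvd Q hD a θ _ _ ha hna hθ (hg1 x hx), hg2 x hx⟩
  · intro x hx x' hx' hne
    have hm : j * (x - x') ≠ 0 := mul_ne_zero hj (sub_ne_zero.2 hne)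
    have h1 := hHGC K Q hD0 a ((x : 𝓞 K) * e₁ + j * e₂) (g x) ((x' : 𝓞 K) * e₁ + j * e₂) (g x')
      (j * (x - x')) (hg1 x hx) (hg1 x' hx') hm (by rw [HBAD_Y, abs_mul, hdet])
    have h2 : (Nat.gcd (gd Q ((x : 𝓞 K) * e₁ + j * e₂) (g x))
        (gd Q ((x' : 𝓞 K) * e₁ + j * e₂) (g x')) : ℝ) ≤ 2 * |(j : ℝ) * (x - x')| := by
      have h3 : ((Nat.gcd (gd Q ((x : 𝓞 K) * e₁ + j * e₂) (g x))
        (gd Q ((x' : 𝓞 K) * e₁ + j * e₂) (g x')) : ℤ) : ℝ) ≤ ((2 * |j * (x - x')| : ℤ) : ℝ) := by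
        exact_mod_cast h1
      push_cast at h3
      exact h3
    exact h2.trans (by linarith [hSS x hx x' hx'])

end Pool.Agent.T6
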